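import Pool.Agent.H80Nabla.Proof

open Ordinal Pool.Agent.H80Nabla

/-- **`Δ(ω + 1)` implies `Δ(ω · ω + 1)`**: if the nabla product `∇(ω + 1)^ω` is monotonically
normal, then so is `∇(ω · ω + 1)^ω`. Here the ordinal `α` is the space `Set.Iio α`. -/
theorem Pool.Agent.Results.MP_1ca6f4_lc.DeltaOmegaSq.result :
    MonotonicallyNormal (Nabla (Set.Iio (ω + 1 : Ordinal.{0}))) →
      MonotonicallyNormal (Nabla (Set.Iio (ω * ω + 1 : Ordinal.{0}))) :=
  delta_omega_sq
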